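import Pool.Agent.Q45.EM.Stm

/-!
# Project EM: the characteristic polynomial of a permutation (statement S_CHP)
-/

set_option autoImplicit false

open Polynomial

namespace Pool.Agent.Q237.EM.CHP

section

variable {R A : Type} [Fintype R] [DecidableEq R] [CommRing A]

/-- the matrix of the permutation -/
def P (A : Type) [CommRing A] (σ : Equiv.Perm R) : Matrix R R A := fun i j => if σ i = j then 1 else 0

lemma P_mul (σ τ : Equiv.Perm R) : P A σ * P A τ = P A (τ * σ) := by
  ext i k
  rw [Matrix.mul_apply]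
  simp only [P, ite_mul, one_mul, zero_mul, Finset.sum_ite_eq, Finset.mem_univ, if_true,
    Equiv.Perm.mul_apply]
  by_cases h : τ (σ i) = k
  · rw [if_pos h, if_pos h]
  · rw [if_neg h, if_neg h]

lemma P_one : P A (1 : Equiv.Perm R) = 1 := by
  ext i j
  rw [Matrix.one_apply]
  simp only [P, Equiv.Perm.one_apply]
  by_cases h : i = j
  · rw [if_pos h, if_pos h]
  · rw [if_neg h, if_neg h]

lemma P_add {σ τ : Equiv.Perm R} (h : σ.Disjoint τ) : P A σ + P A τ = 1 + P A (σ * τ) := by
  ext i j
  rw [Matrix.add_apply, Matrix.add_apply, Matrix.one_apply]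
  simp only [P]
  have hc : σ * τ = τ * σ := h.commute.eq
  rcases h i with hi | hi
  · have h2 : (σ * τ) i = τ i := by rw [hc, Equiv.Perm.mul_apply, hi]
    rw [h2, hi]
  · have h2 : (σ * τ) i = σ i := by rw [Equiv.Perm.mul_apply, hi]
    rw [h2, hi, add_comm]

/-- the characteristic matrix -/
def Q (x : A) (σ : Equiv.Perm R) : Matrix R R A := x • (1 : Matrix R R A) - P A σ

lemma Q_mul (x : A) {σ τ : Equiv.Perm R} (h : σ.Disjoint τ) :
    Q x σ * Q x τ = (x - 1) • Q x (σ * τ) := by
  have h1 := P_add (A := A) h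
  have h2 : P A σ * P A τ = P A (σ * τ) := by rw [P_mul, h.commute.eq]
  have h3 : P A τ = 1 + P A (σ * τ) - P A σ := by rw [← h1]; abel
  unfold Q
  rw [Matrix.sub_mul, Matrix.mul_sub, Matrix.mul_sub, h2, Matrix.smul_mul, Matrix.one_mul,
    Matrix.mul_smul, Matrix.mul_one, Matrix.smul_mul, Matrix.one_mul, h3]
  module

lemma det_Q_mul (x : A) {σ τ : Equiv.Perm R} (h : σ.Disjoint τ) :
    (Q x σ).det * (Q x τ).det = (x - 1) ^ Fintype.card R * (Q x (σ * τ)).det := by
  rw [← Matrix.det_mul, Q_mul x h, Matrix.det_smul]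

lemma det_Q_one (x : A) : (Q x (1 : Equiv.Perm R)).det = (x - 1) ^ Fintype.card R := by
  unfold Q
  rw [P_one, show x • (1 : Matrix R R A) - 1 = (x - 1) • (1 : Matrix R R A) by
    rw [sub_smul, one_smul], Matrix.det_smul, Matrix.det_one, mul_one]

lemma cyc_dich {σ τ : Equiv.Perm R} (hσ : σ.IsCycle) (h : ∀ i, τ i = i ∨ τ i = σ i) :
    τ = 1 ∨ τ = σ := by
  by_cases h1 : τ = σ
  · exact Or.inr h1
  left
  obtain ⟨a, ha⟩ : ∃ a, τ a ≠ σ a := by
    by_contra hh
    push Not at hh
    exact h1 (Equiv.ext hh)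
  have ha1 : τ a = a := (h a).resolve_right ha
  have ha2 : σ a ≠ a := fun hh => ha (by rw [ha1, hh])
  have key : ∀ (k : ℕ) (b : R), (σ ^ k) b = a → τ b = b := by
    intro k
    induction k with
    | zero =>
      intro b hb
      rw [pow_zero, Equiv.Perm.one_apply] at hb
      rw [hb, ha1]
    | succ k ih =>
      intro b hb
      rw [pow_succ, Equiv.Perm.mul_apply] at hb
      have h3 := ih _ hb
      rcases h b with h4 | h4
      · exact h4
      · have h5 : b = σ b := τ.injective (by rw [h4, h3])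
        rw [h4, ← h5]
  ext b
  rw [Equiv.Perm.one_apply]
  by_cases hb : σ b = b
  · rcases h b with h4 | h4
    · exact h4
    · rw [h4, hb]
  · obtain ⟨k, hk⟩ := hσ.exists_pow_eq hb ha2
    exact key k b hk

lemma prod_supp (σ : Equiv.Perm R) (f : R → A) (u v : A) (hu : ∀ i, σ i ≠ i → f i = u)
    (hv : ∀ i, σ i = i → f i = v) :
    ∏ i, f i = u ^ σ.support.card * v ^ (Fintype.card R - σ.support.card) := by
  rw [← Finset.prod_mul_prod_compl σ.support f, ← Finset.card_compl]
  congr 1
  · rw [Finset.prod_congr rfl fun i hi => hu i (Equiv.Perm.mem_support.1 hi), Finset.prod_const]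
  · rw [Finset.prod_congr rfl fun i hi => hv i (by
      rw [Finset.mem_compl, Equiv.Perm.mem_support, not_not] at hi
      exact hi), Finset.prod_const]

lemma det_Q_cycle (x : A) {σ : Equiv.Perm R} (hσ : σ.IsCycle) :
    (Q x σ).det = (x ^ σ.support.card - 1) * (x - 1) ^ (Fintype.card R - σ.support.card) := by
  rw [← Matrix.det_transpose, Matrix.det_apply']
  have hM : ∀ τ : Equiv.Perm R, ∀ i, (Q x σ).transpose (τ i) i =
      (if i = τ i then x else 0) - (if σ i = τ i then 1 else 0) := by
    intro τ i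
    rw [Matrix.transpose_apply]
    unfold Q P
    rw [Matrix.sub_apply, Matrix.smul_apply, Matrix.one_apply, smul_eq_mul, mul_ite, mul_one,
      mul_zero]
  have h0 : ∀ τ : Equiv.Perm R, τ ∉ ({1, σ} : Finset (Equiv.Perm R)) →
      ((Equiv.Perm.sign τ : ℤ) : A) * ∏ i, (Q x σ).transpose (τ i) i = 0 := by
    intro τ hτ
    have h1 : ∃ i, ¬ (τ i = i ∨ τ i = σ i) := by
      by_contra hh
      push Not at hh
      apply hτ
      rw [Finset.mem_insert, Finset.mem_singleton]
      exact cyc_dich hσ hh
    obtain ⟨i, hi⟩ := h1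
    push Not at hi
    rw [Finset.prod_eq_zero (Finset.mem_univ i), mul_zero]
    rw [hM, if_neg (fun h => hi.1 h.symm), if_neg (fun h => hi.2 h.symm), sub_zero]
  rw [← Finset.sum_subset (Finset.subset_univ ({1, σ} : Finset (Equiv.Perm R)))
    (fun τ _ hτ => h0 τ hτ), Finset.sum_pair (fun h => hσ.ne_one h.symm)]
  have e1 : ∏ i, (Q x σ).transpose ((1 : Equiv.Perm R) i) i =
      x ^ σ.support.card * (x - 1) ^ (Fintype.card R - σ.support.card) := by
    apply prod_supp
    · intro i hi
      rw [hM, Equiv.Perm.one_apply, if_pos rfl, if_neg hi, sub_zero]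
    · intro i hi
      rw [hM, Equiv.Perm.one_apply, if_pos rfl, if_pos hi]
  have e2 : ∏ i, (Q x σ).transpose (σ i) i =
      (-1) ^ σ.support.card * (x - 1) ^ (Fintype.card R - σ.support.card) := by
    apply prod_supp
    · intro i hi
      rw [hM, if_neg (fun h => hi h.symm), if_pos rfl, zero_sub]
    · intro i hi
      rw [hM, if_pos hi.symm, if_pos rfl]
  rw [e1, e2, Equiv.Perm.sign_one, hσ.sign]
  have h3 : (((-(-1) ^ σ.support.card : ℤˣ) : ℤ) : A) = -(-1) ^ σ.support.card := by
    push_cast
    rfl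
  rw [h3]
  have h4 : ((-1 : A) ^ σ.support.card) * (-1) ^ σ.support.card = 1 := by
    rw [← mul_pow]
    simp
  have h5 : -(-1 : A) ^ σ.support.card *
      ((-1) ^ σ.support.card * (x - 1) ^ (Fintype.card R - σ.support.card)) =
      - (((-1 : A) ^ σ.support.card * (-1) ^ σ.support.card) *
        (x - 1) ^ (Fintype.card R - σ.support.card)) := by ring
  rw [h5, h4]
  push_cast
  ring

lemma parts_prod (x : A) (σ : Equiv.Perm R) :
    ((Equiv.Perm.partition σ).parts.map fun c : ℕ => (x ^ c - 1 : A)).prod =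
      (σ.cycleType.map fun c : ℕ => (x ^ c - 1 : A)).prod *
        (x - 1) ^ (Fintype.card R - σ.support.card) := by
  rw [Equiv.Perm.parts_partition, Multiset.map_add, Multiset.prod_add, Multiset.map_replicate,
    Multiset.prod_replicate, pow_one]

lemma det_Q (x : A) (hx : ∀ n : ℕ, ∀ a b : A, (x - 1) ^ n * a = (x - 1) ^ n * b → a = b)
    (σ : Equiv.Perm R) :
    (Q x σ).det = ((Equiv.Perm.partition σ).parts.map fun c : ℕ => (x ^ c - 1 : A)).prod := by
  rw [parts_prod]
  induction σ using Equiv.Perm.cycle_induction_on with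
  | base_one => rw [det_Q_one]; simp
  | base_cycles σ hσ =>
    rw [det_Q_cycle x hσ, hσ.cycleType, Multiset.map_singleton, Multiset.prod_singleton]
  | induction_disjoint σ τ h _ h1 h2 =>
    apply hx (Fintype.card R)
    rw [← det_Q_mul x h, h1, h2, h.cycleType_mul, Multiset.map_add, Multiset.prod_add,
      h.card_support_mul]
    have h3 : σ.support.card + τ.support.card ≤ Fintype.card R := by
      rw [← h.card_support_mul]
      exact Finset.card_le_univ _
    have h4 : Fintype.card R - σ.support.card + (Fintype.card R - τ.support.card) =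
        Fintype.card R + (Fintype.card R - (σ.support.card + τ.support.card)) := by omega
    calc _ = (σ.cycleType.map fun c : ℕ => (x ^ c - 1 : A)).prod *
          (τ.cycleType.map fun c : ℕ => (x ^ c - 1 : A)).prod *
          (x - 1) ^ (Fintype.card R - σ.support.card + (Fintype.card R - τ.support.card)) := by
            rw [pow_add]; ring
      _ = _ := by rw [h4, pow_add]; ring

end

/-- the characteristic polynomial of a permutation -/
theorem charpoly_funLeft {R : Type} [Fintype R] [DecidableEq R] (π : Equiv.Perm R) :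
    (LinearMap.funLeft (ZMod 2) (ZMod 2) (π : R → R)).charpoly =
      ((Equiv.Perm.partition π).parts.map fun c : ℕ => (X ^ c - 1 : (ZMod 2)[X])).prod := by
  rw [← det_Q (X : (ZMod 2)[X]) ?_ π, ← LinearMap.charpoly_toMatrix _ (Pi.basisFun (ZMod 2) R)]
  · unfold Matrix.charpoly
    congr 1
    ext i j
    rw [Matrix.charmatrix_apply]
    unfold Q P
    rw [Matrix.sub_apply, Matrix.smul_apply, Matrix.one_apply, smul_eq_mul, mul_ite, mul_one,
      mul_zero, Matrix.diagonal_apply, LinearMap.toMatrix_apply]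
    congr 1
    rw [Pi.basisFun_apply, Pi.basisFun_repr, LinearMap.funLeft_apply, Pi.single_apply]
    split_ifs <;> simp
  · intro n a b h
    have h1 : ((X : (ZMod 2)[X]) - 1) ^ n ≠ 0 := by
      apply pow_ne_zero
      have := Polynomial.X_sub_C_ne_zero (1 : ZMod 2)
      rwa [map_one] at this
    exact mul_left_cancel₀ h1 h

theorem main : Pool.Agent.Q45.EM.S_CHP := by
  intro R _ π
  classical
  exact charpoly_funLeft π

end Pool.Agent.Q237.EM.CHP
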