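import Pool.Agent.Q237.EM.Sec

/-! # Project EM (helper86): the gradient of one step -/

set_option autoImplicit false

namespace Pool.Agent.Q237.EM

open MeasureTheory Set Filter Topology
open scoped ENNReal InnerProductSpace ContDiff
open Pool.Agent.H888R2.KT (LC pst gs zz gc)
open Pool.Agent.H212R2.KLS (mu Bdd)
open Pool.Agent.Q86.EM

theorem int_sq_le {α : Type*} [MeasurableSpace α] {ν : Measure α} [IsProbabilityMeasure ν] {e : α → ℝ}
    (h1 : Integrable e ν) (h2 : Integrable (fun y => e y ^ 2) ν) :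
    (∫ y, e y ∂ν) ^ 2 ≤ ∫ y, e y ^ 2 ∂ν := by
  set m := ∫ y, e y ∂ν with hm
  have h3 : 0 ≤ ∫ y, (e y ^ 2 + ((-(2 * m)) * e y + m ^ 2)) ∂ν :=
    integral_nonneg fun y => by
      show 0 ≤ e y ^ 2 + ((-(2 * m)) * e y + m ^ 2)
      nlinarith [sq_nonneg (e y - m)]
  have h4 : ∫ y, (e y ^ 2 + ((-(2 * m)) * e y + m ^ 2)) ∂ν =
      ∫ y, e y ^ 2 ∂ν + ∫ y, ((-(2 * m)) * e y + m ^ 2) ∂ν :=
    integral_add h2 ((h1.const_mul _).add (integrable_const _))
  have h5 : ∫ y, ((-(2 * m)) * e y + m ^ 2) ∂ν = -(2 * m) * m + m ^ 2 := by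
    have h6 : ∫ y, ((-(2 * m)) * e y + m ^ 2) ∂ν = ∫ y, (-(2 * m)) * e y ∂ν + ∫ _, m ^ 2 ∂ν :=
      integral_add (h1.const_mul _) (integrable_const _)
    rw [h6, integral_const_mul, integral_const, probReal_univ, one_smul, ← hm]
  rw [h4, h5] at h3
  nlinarith

theorem Ps_hasDeriv (w : ℝ) : HasDerivAt Ps (Pd w) w := by
  have h1 : HasDerivAt (fun w : ℝ => 3 / 5 * w + 7 / 5 * w ^ 2 - w ^ 3)
      (3 / 5 * 1 + 7 / 5 * (2 * w) - 3 * w ^ 2) w := by
    have a := (hasDerivAt_id w).const_mul (3 / 5 : ℝ)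
    have b := ((hasDerivAt_id w).pow 2).const_mul (7 / 5 : ℝ)
    have c := (hasDerivAt_id w).pow 3
    have d := (a.add b).sub c
    refine d.congr_deriv ?_
    simp
  have e : Pd w = 3 / 5 * 1 + 7 / 5 * (2 * w) - 3 * w ^ 2 := by
    unfold Pd
    ring
  rw [e]
  exact h1

theorem Ps_contDiff : ContDiff ℝ 1 Ps := by
  unfold Ps
  fun_prop

/-- **S_GIN.** -/
theorem gin (h1 : S_FUB) (h2 : S_GSF) (h3 : S_GR2) : S_GIN := by
  intro κ _ ρ hρ hm h hh θ hθ hgrad v v₁ φ hv hv₁ hφ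
  obtain ⟨hP, hfub⟩ := h1 κ ρ hρ hm h hh
  obtain ⟨g1, g2, g3⟩ := h2 κ h hh
  have hMp : IsProbabilityMeasure (mu ρ) := ⟨hm⟩
  have int : ∀ g : Eu κ → ℝ, Continuous g → Integrable g (mu ρ) := fun g hg =>
    Pool.Agent.H888R2.KT.N9ax.integrable hρ hg
  have cPs : Continuous Ps := Ps_contDiff.continuous
  have cPd : Continuous Pd := by unfold Pd; fun_prop
  have hsh : 0 < √h := Real.sqrt_pos.2 hh
  -- the average of a `Vc` function
  have avg : ∀ u : Eu κ → ℝ, Vc u → Continuous (gs h u) ∧ (∀ x, 0 ≤ gs h u x) ∧ (∀ x, gs h u x ≤ 1) := by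
    intro u hu
    have hB : ∀ y, |u y| ≤ 1 := fun y => abs_le.2 ⟨by linarith [hu.nn y], hu.le y⟩
    refine ⟨(g1 u u hu.cont hu.cont 1 hB hB).1, fun x => ?_, fun x => ?_⟩
    · have e1 := (g1 (fun _ => 0) u continuous_const hu.cont 1 (fun y => by simp) hB).2.2.2.2.2
        (fun y => hu.nn y) x
      rwa [g2 0 x] at e1
    · have e1 := (g1 u (fun _ => 1) hu.cont continuous_const 1 hB (fun y => by simp)).2.2.2.2.2
        (fun y => hu.le y) x
      rwa [g2 1 x] at e1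
  obtain ⟨cG, G0, G1⟩ := avg v hv
  set w : Eu κ → ℝ := fun x => Ps (gs h v x) with hw
  have cw : Continuous w := cPs.comp cG
  have w0 : ∀ x, 0 ≤ w x := fun x => Ps_nn (G0 x) (G1 x)
  have w1 : ∀ x, w x ≤ 1 := fun x => Ps_le (G0 x) (G1 x)
  have hv1 : Vc v₁ := by
    rw [hv₁]
    refine ⟨(Pool.Agent.H888R2.KT.pst_smooth hρ h hh w cw).1.continuous, fun y => ?_, fun y => ?_⟩
    · have e1 := Pool.Agent.H888R2.KT.N5x.pst_mono hρ h hh y (fun _ => 0) w continuous_const cw w0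
      rwa [Pool.Agent.H888R2.KT.N5x.pst_const hρ h hh y 0] at e1
    · have e1 := Pool.Agent.H888R2.KT.N5x.pst_mono hρ h hh y w (fun _ => 1) cw continuous_const w1
      rwa [Pool.Agent.H888R2.KT.N5x.pst_const hρ h hh y 1] at e1
  obtain ⟨hsm, B, hB⟩ := Pool.Agent.H888R2.KT.pst_smooth hρ h hh w cw
  rw [← hv₁] at hsm hB
  have hC1 : ContDiff ℝ 1 v₁ := hsm.of_le (by norm_num)
  have cφ : Continuous φ := by
    rw [hφ]
    exact (hC1.continuous_fderiv (by norm_num)).norm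
  have φ0 : ∀ y, 0 ≤ φ y := fun y => by rw [hφ]; exact norm_nonneg _
  -- the bound for φ
  have hφkey : ∀ y, h * φ y ^ 2 ≤ v₁ y - v₁ y ^ 2 := by
    intro y
    have e1 := h3 κ ρ hρ h hh w cw y
    have e2 : pst h ρ (fun x => w x ^ 2) y ≤ pst h ρ w y :=
      Pool.Agent.H888R2.KT.N5x.pst_mono hρ h hh y (fun x => w x ^ 2) w (cw.pow 2) cw fun x => by
        have := w0 x
        have := w1 x
        nlinarith
    rw [← hv₁] at e1 e2
    rw [hφ]
    show h * ‖fderiv ℝ v₁ y‖ ^ 2 ≤ _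
    linarith
  have hφ1 : ∀ y, h * φ y ^ 2 ≤ v₁ y := fun y => by
    have := hφkey y
    have := sq_nonneg (v₁ y)
    linarith
  have hφ2 : ∀ y, h * φ y ^ 2 ≤ 1 - v₁ y := fun y => by
    have e1 := hφkey y
    have := sq_nonneg (1 - v₁ y)
    nlinarith
  have hφb : ∀ y, φ y ≤ 1 / √h := by
    intro y
    rw [le_div_iff₀ hsh]
    have e1 : (φ y * √h) ^ 2 ≤ 1 ^ 2 := by
      have e2 : (φ y * √h) ^ 2 = h * φ y ^ 2 := by rw [mul_pow, Real.sq_sqrt hh.le, mul_comm]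
      rw [e2, one_pow]
      exact (hφ1 y).trans (hv1.le y)
    exact le_of_sq_le_sq e1 zero_le_one
  have hφB : ∀ y, |φ y| ≤ 1 / √h := fun y => by rw [abs_of_nonneg (φ0 y)]; exact hφb y
  -- the gradient of the average
  obtain ⟨hG1, hG2⟩ := g3 v₁ hC1 B (fun y => (hB y).1) (fun y => (hB y).2.1)
  have hG3 : ∀ x, ‖fderiv ℝ (gs h v₁) x‖ ≤ gs h φ x := fun x => by rw [hφ]; exact hG2 x
  refine ⟨cφ, hφ1, hφ2, hG3, ?_⟩
  obtain ⟨cH, H0, H1⟩ := avg v₁ hv1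
  obtain ⟨cGφ, -, -, -, -, -⟩ := g1 φ φ cφ cφ _ hφB hφB
  have Gφ0 : ∀ x, 0 ≤ gs h φ x := by
    intro x
    have e1 := (g1 (fun _ => 0) φ continuous_const cφ (1 / √h) (fun y => by simp) hφB).2.2.2.2.2 φ0 x
    rwa [g2 0 x] at e1
  set u₁ : Eu κ → ℝ := fun x => Ps (gs h v₁ x) with hu₁
  have cu₁ : Continuous u₁ := cPs.comp cH
  have hu₁C : ContDiff ℝ 1 u₁ := Ps_contDiff.comp hG1
  have hu₁d : ∀ x, ‖fderiv ℝ u₁ x‖ ≤ Pd (gs h v₁ x) * gs h φ x := by
    intro x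
    have e1 : HasFDerivAt (gs h v₁) (fderiv ℝ (gs h v₁) x) x :=
      (hG1.differentiable (by norm_num) x).hasFDerivAt
    have e2 : HasFDerivAt u₁ (Pd (gs h v₁ x) • fderiv ℝ (gs h v₁) x) x :=
      (Ps_hasDeriv (gs h v₁ x)).comp_hasFDerivAt x e1
    rw [e2.fderiv, norm_smul, Real.norm_eq_abs, abs_of_nonneg (Pd_nn (H0 x) (H1 x))]
    exact mul_le_mul_of_nonneg_left (hG3 x) (Pd_nn (H0 x) (H1 x))
  set g : Eu κ → ℝ := fun x => Pd (gs h v₁ x) * gs h φ x with hg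
  have cg : Continuous g := (cPd.comp cH).mul cGφ
  -- the difference
  set r : Eu κ → ℝ := fun x => w x + (-1) * u₁ x with hr
  have cr : Continuous r := cw.add (continuous_const.mul cu₁)
  set e : Eu κ → ℝ := fun y => ‖fderiv ℝ (pst h ρ r) y‖ with he
  have hsr := (Pool.Agent.H888R2.KT.pst_smooth hρ h hh r cr).1
  obtain ⟨hsr, Br, hBr⟩ := Pool.Agent.H888R2.KT.pst_smooth hρ h hh r cr
  have ce : Continuous e := ((hsr.of_le (by norm_num : (1 : WithTop ℕ∞) ≤ 2)).continuous_fderiv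
    (by norm_num)).norm
  have e0 : ∀ y, 0 ≤ e y := fun y => norm_nonneg _
  have heB : ∀ y, |e y| ≤ Br := fun y => by rw [abs_of_nonneg (e0 y)]; exact (hBr y).2.1
  have hφe : ∀ y, φ y ≤ θ * pst h ρ g y + e y := by
    intro y
    have d1 : v₁ = fun z => pst h ρ u₁ z + pst h ρ r z := by
      funext z
      rw [hv₁, ← Pool.Agent.H888R2.KT.N5x.pst_add hρ h hh z u₁ r cu₁ cr]
      congr 1
      funext x
      rw [hr]
      ring
    have d2 : DifferentiableAt ℝ (pst h ρ u₁) y := (Pool.Agent.H888R2.KT.pst_deriv hρ h hh u₁ cu₁ y).1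
    have d3 : DifferentiableAt ℝ (pst h ρ r) y := (Pool.Agent.H888R2.KT.pst_deriv hρ h hh r cr y).1
    have d4 : fderiv ℝ v₁ y = fderiv ℝ (pst h ρ u₁) y + fderiv ℝ (pst h ρ r) y := by
      rw [d1]
      exact fderiv_add d2 d3
    have d5 : φ y ≤ ‖fderiv ℝ (pst h ρ u₁) y‖ + e y := by
      rw [hφ]
      show ‖fderiv ℝ v₁ y‖ ≤ _
      rw [d4]
      exact norm_add_le _ _
    have d6 := hgrad u₁ hu₁C y
    have d7 : pst h ρ (fun x => ‖fderiv ℝ u₁ x‖) y ≤ pst h ρ g y :=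
      Pool.Agent.H888R2.KT.N5x.pst_mono hρ h hh y _ g (hu₁C.continuous_fderiv (by norm_num)).norm cg hu₁d
    have d8 := mul_le_mul_of_nonneg_left d7 hθ
    linarith
  -- integration
  have iφ2 : Integrable (fun y => φ y ^ 2) (ny h ρ) :=
    int_bdd (cφ.pow 2) (B := (1 / √h) ^ 2) (fun y => by
      rw [abs_of_nonneg (sq_nonneg _)]
      exact pow_le_pow_left₀ (φ0 y) (hφb y) 2)
  have ie : Integrable e (ny h ρ) := int_bdd ce heB
  have ie2 : Integrable (fun y => e y ^ 2) (ny h ρ) :=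
    int_bdd (ce.pow 2) (B := Br ^ 2) (fun y => by
      rw [abs_of_nonneg (sq_nonneg _)]
      exact pow_le_pow_left₀ (e0 y) (le_of_abs_le (heB y)) 2)
  obtain ⟨iQ, hQ⟩ := hfub g φ cg cφ (1 / √h) hφB
  have hint : ∫ y, φ y ^ 2 ∂(ny h ρ) ≤ θ * ∫ y, pst h ρ g y * φ y ∂(ny h ρ) + 1 / √h * ∫ y, e y ∂(ny h ρ) := by
    have d1 : ∫ y, φ y ^ 2 ∂(ny h ρ) ≤ ∫ y, (θ * (pst h ρ g y * φ y) + 1 / √h * e y) ∂(ny h ρ) := by
      refine integral_mono iφ2 ((iQ.const_mul θ).add (ie.const_mul _)) fun y => ?_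
      show φ y ^ 2 ≤ θ * (pst h ρ g y * φ y) + 1 / √h * e y
      have d2 := mul_le_mul_of_nonneg_right (hφe y) (φ0 y)
      have d3 : e y * φ y ≤ e y * (1 / √h) := mul_le_mul_of_nonneg_left (hφb y) (e0 y)
      nlinarith
    have d2 : ∫ y, (θ * (pst h ρ g y * φ y) + 1 / √h * e y) ∂(ny h ρ) =
        ∫ y, θ * (pst h ρ g y * φ y) ∂(ny h ρ) + ∫ y, 1 / √h * e y ∂(ny h ρ) :=
      integral_add (iQ.const_mul θ) (ie.const_mul _)
    rw [d2, integral_const_mul, integral_const_mul] at d1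
    exact d1
  have hgφ : ∫ y, pst h ρ g y * φ y ∂(ny h ρ) = ∫ x, Pd (gs h v₁ x) * (gs h φ x) ^ 2 ∂(mu ρ) := by
    rw [← hQ]
    refine integral_congr_ae (Eventually.of_forall fun x => ?_)
    show Pd (gs h v₁ x) * gs h φ x * gs h φ x = _
    ring
  rw [hgφ] at hint
  -- the error
  set R := ∫ y, (v₁ y - v y) ^ 2 ∂(ny h ρ) with hR
  have hdiffB : ∀ y, |(v y + (-1) * v₁ y)| ≤ 1 := by
    intro y
    rw [abs_le]
    constructor
    · linarith [hv.nn y, hv1.le y]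
    · linarith [hv.le y, hv1.nn y]
  have cdiff : Continuous fun y => v y + (-1) * v₁ y := hv.cont.add (continuous_const.mul hv1.cont)
  have hsqB : ∀ y, |(v y + (-1) * v₁ y) ^ 2| ≤ 1 := fun y => by
    rw [abs_of_nonneg (sq_nonneg _), ← sq_abs]
    have := hdiffB y
    have := abs_nonneg (v y + (-1) * v₁ y)
    nlinarith
  have hR' : ∫ x, gs h (fun y => (v y + (-1) * v₁ y) ^ 2) x ∂(mu ρ) = R := by
    have d1 := (hfub (fun _ => 1) (fun y => (v y + (-1) * v₁ y) ^ 2) continuous_const (cdiff.pow 2) 1 hsqB).2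
    have d2 : ∀ y, pst h ρ (fun _ => (1 : ℝ)) y = 1 := fun y => Pool.Agent.H888R2.KT.N5x.pst_const hρ h hh y 1
    simp only [one_mul, d2] at d1
    rw [d1, hR]
    refine integral_congr_ae (Eventually.of_forall fun y => ?_)
    show (v y + (-1) * v₁ y) ^ 2 = (v₁ y - v y) ^ 2
    ring
  have hR0 : 0 ≤ R := integral_nonneg fun y => sq_nonneg _
  have hr2 : ∫ x, r x ^ 2 ∂(mu ρ) ≤ 4 * R := by
    have hvB : ∀ y, |v y| ≤ 1 := fun y => abs_le.2 ⟨by linarith [hv.nn y], hv.le y⟩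
    have hv1B : ∀ y, |v₁ y| ≤ 1 := fun y => abs_le.2 ⟨by linarith [hv1.nn y], hv1.le y⟩
    have hGd : ∀ x, gs h (fun y => v y + (-1) * v₁ y) x = gs h v x + (-1) * gs h v₁ x := by
      intro x
      rw [(g1 v (fun y => (-1) * v₁ y) hv.cont (continuous_const.mul hv1.cont) 1 hvB
        (fun y => by rw [abs_mul]; simpa using hv1B y)).2.2.2.1 x,
        (g1 v₁ v₁ hv1.cont hv1.cont 1 hv1B hv1B).2.2.2.2.1 (-1) x]
    obtain ⟨c1, -, c2, -⟩ := g1 (fun y => v y + (-1) * v₁ y) (fun y => v y + (-1) * v₁ y) cdiff cdiff 1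
      hdiffB hdiffB
    obtain ⟨c3, -⟩ := g1 (fun y => (v y + (-1) * v₁ y) ^ 2) (fun y => (v y + (-1) * v₁ y) ^ 2)
      (cdiff.pow 2) (cdiff.pow 2) 1 hsqB hsqB
    calc ∫ x, r x ^ 2 ∂(mu ρ)
        ≤ ∫ x, 4 * gs h (fun y => (v y + (-1) * v₁ y) ^ 2) x ∂(mu ρ) := by
          refine integral_mono (int _ (cr.pow 2)) ((int _ c3).const_mul 4) fun x => ?_
          show r x ^ 2 ≤ 4 * gs h (fun y => (v y + (-1) * v₁ y) ^ 2) x
          have d1 := Ps_lip (G0 x) (G1 x) (H0 x) (H1 x)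
          have d2 : r x = Ps (gs h v x) - Ps (gs h v₁ x) := by
            rw [hr, hw, hu₁]
            ring
          have d3 := c2 x
          rw [hGd x] at d3
          have d4 : r x ^ 2 ≤ (2 * |gs h v x - gs h v₁ x|) ^ 2 := by
            rw [← sq_abs, d2]
            exact pow_le_pow_left₀ (abs_nonneg _) d1 2
          rw [mul_pow, sq_abs] at d4
          have d5 : gs h v x + (-1) * gs h v₁ x = gs h v x - gs h v₁ x := by ring
          rw [d5] at d3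
          linarith
      _ = 4 * R := by rw [integral_const_mul, hR']
  have he2 : ∫ y, e y ^ 2 ∂(ny h ρ) ≤ 4 * R / h := by
    obtain ⟨iq, hq⟩ := hfub (fun x => r x ^ 2) (fun _ => 1) (cr.pow 2) continuous_const 1 (fun y => by simp)
    have g21 : ∀ x, gs h (fun _ => (1 : ℝ)) x = 1 := fun x => g2 1 x
    simp only [mul_one, g21] at iq hq
    have d1 : ∫ y, e y ^ 2 ∂(ny h ρ) ≤ ∫ y, 1 / h * pst h ρ (fun x => r x ^ 2) y ∂(ny h ρ) := by
      refine integral_mono ie2 (iq.const_mul _) fun y => ?_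
      show e y ^ 2 ≤ 1 / h * pst h ρ (fun x => r x ^ 2) y
      have d2 := h3 κ ρ hρ h hh r cr y
      have d3 : h * e y ^ 2 ≤ pst h ρ (fun x => r x ^ 2) y := by
        have := sq_nonneg (pst h ρ r y)
        rw [he]
        linarith
      rw [one_div, inv_mul_eq_div, le_div_iff₀ hh]
      linarith
    rw [integral_const_mul, ← hq] at d1
    refine d1.trans ?_
    have d2 : 1 / h * ∫ x, r x ^ 2 ∂(mu ρ) ≤ 1 / h * (4 * R) := mul_le_mul_of_nonneg_left hr2 (by positivity)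
    refine d2.trans (le_of_eq ?_)
    ring
  have he1 : ∫ y, e y ∂(ny h ρ) ≤ 2 / √h * √R := by
    have d1 := int_sq_le ie ie2
    have d2 : (∫ y, e y ∂(ny h ρ)) ^ 2 ≤ (2 / √h * √R) ^ 2 := by
      refine d1.trans (he2.trans (le_of_eq ?_))
      rw [mul_pow, div_pow, Real.sq_sqrt hh.le, Real.sq_sqrt hR0]
      ring
    exact le_of_sq_le_sq d2 (by positivity)
  have hlast : 1 / √h * ∫ y, e y ∂(ny h ρ) ≤ 2 / h * √R := by
    have d1 : 1 / √h * ∫ y, e y ∂(ny h ρ) ≤ 1 / √h * (2 / √h * √R) :=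
      mul_le_mul_of_nonneg_left he1 (by positivity)
    refine d1.trans (le_of_eq ?_)
    have d2 : √h * √h = h := Real.mul_self_sqrt hh.le
    calc 1 / √h * (2 / √h * √R) = 2 / (√h * √h) * √R := by field_simp
      _ = 2 / h * √R := by rw [d2]
  linarith

end Pool.Agent.Q237.EM
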