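import Pool.Agent.Q237.EM.Sec

/-! # Project EM (helper86): variance of the Gaussian average of a bounded function -/

set_option autoImplicit false

namespace Pool.Agent.Q237.EM

open MeasureTheory Set Filter Topology
open scoped ENNReal InnerProductSpace ContDiff Convolution
open Pool.Agent.H888R2.KT (LC pst gs zz gc)
open Pool.Agent.H212R2.KLS (mu Bdd)
open Pool.Agent.Q86.EM

variable {κ : Type} [Fintype κ]

/-- functions of class `C¹` -/
theorem lip_smooth {ρ : Eu κ → ℝ} {D h : ℝ} (hh : 0 < h)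
    (hlip : ∀ f : Eu κ → ℝ, ContDiff ℝ 1 f → (∀ x, ‖fderiv ℝ f x‖ ≤ 1) →
      ∫ x, f x ^ 2 ∂(mu ρ) - (∫ x, f x ∂(mu ρ)) ^ 2 ≤ D)
    {φ : Eu κ → ℝ} (hφ : ContDiff ℝ 1 φ) (h0 : ∀ y, 0 ≤ φ y) (h1 : ∀ y, φ y ≤ 1) {B : ℝ} (hB1 : 1 ≤ B)
    (hB : ∀ y, ‖fderiv ℝ φ y‖ ≤ B) :
    ∫ x, (gs h φ x) ^ 2 ∂(mu ρ) - (∫ x, gs h φ x ∂(mu ρ)) ^ 2 ≤ D / h := by
  have hb : ∀ y, |φ y| ≤ B := fun y => (abs_le.2 ⟨by linarith [h0 y], h1 y⟩ : |φ y| ≤ 1).trans hB1
  set v := gs h φ with hv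
  have hv1 : ContDiff ℝ 1 v := (Pool.Agent.H888R2.KT.gs_deriv h hh φ hφ B hb hB).1
  have hg : ∀ x, h * ‖fderiv ℝ v x‖ ^ 2 ≤ 1 := by
    intro x
    have h2 := Pool.Agent.H888R2.KT.gs_bessel h hh φ hφ B hb hB x
    have h3 := Pool.Agent.H888R2.KB.N1x.gs_le h hh (fun y => φ y ^ 2) (hφ.continuous.pow 2)
      (fun y => sq_nonneg _) (fun y => by nlinarith [h0 y, h1 y]) x
    nlinarith [sq_nonneg (gs h φ x)]
  have hs : 0 < Real.sqrt h := Real.sqrt_pos.2 hh
  have hsq : Real.sqrt h ^ 2 = h := Real.sq_sqrt hh.le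
  have h4 := hlip (fun x => Real.sqrt h * v x) (contDiff_const.mul hv1) (fun x => by
    have h5 : fderiv ℝ (fun x => Real.sqrt h * v x) x = Real.sqrt h • fderiv ℝ v x := by
      have := (hv1.differentiable one_ne_zero x).hasFDerivAt.const_mul (Real.sqrt h)
      exact this.fderiv
    rw [h5, norm_smul, Real.norm_eq_abs, abs_of_pos hs]
    have h6 := hg x
    have h7 : (Real.sqrt h * ‖fderiv ℝ v x‖) ^ 2 ≤ 1 ^ 2 := by rw [mul_pow, hsq, one_pow]; exact h6
    exact le_of_sq_le_sq h7 zero_le_one)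
  have h8 : ∫ x, (Real.sqrt h * v x) ^ 2 ∂(mu ρ) = h * ∫ x, v x ^ 2 ∂(mu ρ) := by
    rw [← integral_const_mul]
    refine integral_congr_ae (Filter.Eventually.of_forall fun x => ?_)
    show (Real.sqrt h * v x) ^ 2 = h * v x ^ 2
    rw [mul_pow, hsq]
  have h9 : (∫ x, Real.sqrt h * v x ∂(mu ρ)) ^ 2 = h * (∫ x, v x ∂(mu ρ)) ^ 2 := by
    rw [integral_const_mul, mul_pow, hsq]
  rw [h8, h9] at h4
  rw [le_div_iff₀ hh]
  linarith

/-- smooth approximations -/
theorem approx (v : Eu κ → ℝ) (hv : Vc v) : ∃ w : ℕ → Eu κ → ℝ,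
    (∀ n, ContDiff ℝ 1 (w n) ∧ (∀ y, 0 ≤ w n y) ∧ (∀ y, w n y ≤ 1) ∧ ∃ B : ℝ, 1 ≤ B ∧
      ∀ y, ‖fderiv ℝ (w n) y‖ ≤ B) ∧ ∀ y, Tendsto (fun n => w n y) atTop (𝓝 (v y)) := by
  let b : ℕ → ContDiffBump (0 : Eu κ) := fun k =>
    { rIn := 1 / (2 * (k + 2))
      rOut := 1 / (k + 2)
      rIn_pos := by positivity
      rIn_lt_rOut := by
        apply div_lt_div_of_pos_left one_pos (by positivity)
        nlinarith [(Nat.cast_nonneg k : (0 : ℝ) ≤ k)] }
  have hbo : ∀ k, (b k).rOut = 1 / (k + 2) := fun k => rfl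
  have hbt : Tendsto (fun k => (b k).rOut) atTop (𝓝 0) := by
    simp only [hbo]
    apply Tendsto.div_atTop tendsto_const_nhds
    exact tendsto_atTop_add_const_right _ _ tendsto_natCast_atTop_atTop
  have hloc : LocallyIntegrable v volume := hv.cont.locallyIntegrable
  refine ⟨fun k => ((b k).normed volume ⋆[ContinuousLinearMap.lsmul ℝ ℝ, volume] v), fun k => ?_,
    fun y => ContDiffBump.convolution_tendsto_right_of_continuous hbt hv.cont y⟩
  set ρ : Eu κ → ℝ := (b k).normed volume with hρ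
  have hρ1 : ContDiff ℝ 1 ρ := (b k).contDiff_normed
  have hρc : HasCompactSupport ρ := (b k).hasCompactSupport_normed
  have hρ0 : ∀ t, 0 ≤ ρ t := fun t => (b k).nonneg_normed t
  have hρi : Integrable ρ volume := hρ1.continuous.integrable_of_hasCompactSupport hρc
  have hρone : ∫ t, ρ t = 1 := (b k).integral_normed
  have hval : ∀ x, (ρ ⋆[ContinuousLinearMap.lsmul ℝ ℝ, volume] v) x = ∫ t, ρ t * v (x - t) := fun x => rfl
  have hi : ∀ x, Integrable (fun t => ρ t * v (x - t)) := by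
    intro x
    have hc : Continuous fun t => v (x - t) := hv.cont.comp (continuous_const.sub continuous_id)
    refine Integrable.mono' hρi (hρ1.continuous.mul hc).aestronglyMeasurable
      (Eventually.of_forall fun t => ?_)
    rw [Real.norm_eq_abs, abs_mul, abs_of_nonneg (hρ0 t), abs_of_nonneg (hv.nn _)]
    exact mul_le_of_le_one_right (hρ0 t) (hv.le _)
  refine ⟨hρc.contDiff_convolution_left _ hρ1 hloc, fun y => ?_, fun y => ?_, ?_⟩
  · show 0 ≤ (ρ ⋆[ContinuousLinearMap.lsmul ℝ ℝ, volume] v) y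
    rw [hval]
    exact integral_nonneg fun t => mul_nonneg (hρ0 t) (hv.nn _)
  · show (ρ ⋆[ContinuousLinearMap.lsmul ℝ ℝ, volume] v) y ≤ 1
    rw [hval, ← hρone]
    refine integral_mono (hi y) hρi fun t => ?_
    exact mul_le_of_le_one_right (hρ0 t) (hv.le _)
  · have hdc : Continuous (fderiv ℝ ρ) := hρ1.continuous_fderiv (by norm_num)
    have hdi : Integrable (fderiv ℝ ρ) volume := hdc.integrable_of_hasCompactSupport (hρc.fderiv ℝ)
    refine ⟨max 1 (∫ t, ‖fderiv ℝ ρ t‖), le_max_left _ _, fun x => ?_⟩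
    show ‖fderiv ℝ (ρ ⋆[ContinuousLinearMap.lsmul ℝ ℝ, volume] v) x‖ ≤ _
    have h1 := hρc.hasFDerivAt_convolution_left (ContinuousLinearMap.lsmul ℝ ℝ) hρ1 hloc x
    rw [h1.fderiv]
    refine le_trans ?_ (le_max_right _ _)
    rw [convolution_def]
    refine (norm_integral_le_integral_norm _).trans ?_
    refine integral_mono_of_nonneg (Eventually.of_forall fun t => norm_nonneg _)
      hdi.norm (Eventually.of_forall fun t => ?_)
    have h2 : ((ContinuousLinearMap.lsmul ℝ ℝ).precompL (Eu κ)) (fderiv ℝ ρ t) (v (x - t)) =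
        v (x - t) • fderiv ℝ ρ t := by
      ext w
      simp [ContinuousLinearMap.precompL_apply, mul_comm]
    simp only [h2]
    rw [norm_smul, Real.norm_eq_abs, abs_of_nonneg (hv.nn _)]
    exact mul_le_of_le_one_left (norm_nonneg _) (hv.le _)

/-- **S_LIP.** -/
theorem lip (h2 : S_GSF) : S_LIP := by
  intro κ _ ρ hρ hm D h hh hlip v hv
  obtain ⟨g1, g2, -⟩ := h2 κ h hh
  have hMp : IsProbabilityMeasure (mu ρ) := ⟨hm⟩
  obtain ⟨w, hw, hlim⟩ := approx v hv
  have bd : ∀ u : Eu κ → ℝ, Continuous u → (∀ y, 0 ≤ u y) → (∀ y, u y ≤ 1) →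
      Continuous (gs h u) ∧ ∀ x, |gs h u x| ≤ 1 := by
    intro u hu hu0 hu1
    have hB : ∀ y, |u y| ≤ 1 := fun y => abs_le.2 ⟨by linarith [hu0 y], hu1 y⟩
    exact ⟨(g1 u u hu hu 1 hB hB).1, (g1 u u hu hu 1 hB hB).2.1⟩
  have hwb : ∀ n, Continuous (gs h (w n)) ∧ ∀ x, |gs h (w n) x| ≤ 1 := fun n =>
    bd (w n) (hw n).1.continuous (hw n).2.1 (hw n).2.2.1
  -- pointwise convergence of the averages
  have hG : ∀ x, Tendsto (fun n => gs h (w n) x) atTop (𝓝 (gs h v x)) := by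
    intro x
    unfold gs
    refine Tendsto.div_const ?_ _
    have hgi := (Pool.Agent.H888R2.KT.gc_pos (κ := κ) h hh).2.2.1 x
    refine tendsto_integral_of_dominated_convergence (fun y => Real.exp (-(‖x - y‖ ^ 2 / (2 * h)))) ?_ hgi ?_ ?_
    · intro n
      exact ((hw n).1.continuous.mul (by fun_prop)).aestronglyMeasurable
    · intro n
      refine Eventually.of_forall fun y => ?_
      rw [Real.norm_eq_abs, abs_mul, abs_of_nonneg ((hw n).2.1 y), abs_of_pos (Real.exp_pos _)]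
      exact mul_le_of_le_one_left (Real.exp_pos _).le ((hw n).2.2.1 y)
    · exact Eventually.of_forall fun y => (hlim y).mul_const _
  have c1 : Tendsto (fun n => ∫ x, gs h (w n) x ∂(mu ρ)) atTop (𝓝 (∫ x, gs h v x ∂(mu ρ))) := by
    refine tendsto_integral_of_dominated_convergence (fun _ => 1) ?_ (integrable_const _) ?_ ?_
    · exact fun n => (hwb n).1.aestronglyMeasurable
    · exact fun n => Eventually.of_forall fun x => by rw [Real.norm_eq_abs]; exact (hwb n).2 x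
    · exact Eventually.of_forall hG
  have c2 : Tendsto (fun n => ∫ x, (gs h (w n) x) ^ 2 ∂(mu ρ)) atTop (𝓝 (∫ x, (gs h v x) ^ 2 ∂(mu ρ))) := by
    refine tendsto_integral_of_dominated_convergence (fun _ => 1) ?_ (integrable_const _) ?_ ?_
    · exact fun n => ((hwb n).1.pow 2).aestronglyMeasurable
    · refine fun n => Eventually.of_forall fun x => ?_
      rw [Real.norm_eq_abs, abs_of_nonneg (sq_nonneg _), ← sq_abs]
      have := (hwb n).2 x
      have := abs_nonneg (gs h (w n) x)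
      nlinarith
    · exact Eventually.of_forall fun x => (hG x).pow 2
  refine le_of_tendsto (c2.sub (c1.pow 2)) (Eventually.of_forall fun n => ?_)
  obtain ⟨e1, e2, e3, B, e4, e5⟩ := hw n
  exact lip_smooth hh hlip e1 e2 e3 e4 e5

end Pool.Agent.Q237.EM
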