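import Pool.Agent.Q237.EM.CHP
import Pool.Agent.Q151.GM.LIN9

/-!
# Project EM: the characteristic polynomial on the quotient (statement S_QCH)
-/

set_option autoImplicit false

open Polynomial

namespace Pool.Agent.Q237.EM.QCH

open Module.Basis in
/-- the characteristic polynomial is the product of those of the restriction and of the quotient -/
theorem charpoly_mul {R V : Type*} [CommRing R] [AddCommGroup V]
    [Module R V] [Module.Finite R V] [Module.Free R V] (W : Submodule R V) [Module.Free R W]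
    [Module.Finite R W] [Module.Free R (V ⧸ W)] (e : V →ₗ[R] V) (he : W ≤ W.comap e) :
    e.charpoly = (e.restrict he).charpoly * (W.mapQ W e he).charpoly := by
  classical
  let m := Module.Free.ChooseBasisIndex R W
  let bW : Module.Basis m R W := Module.Free.chooseBasis R W
  let n := Module.Free.ChooseBasisIndex R (V ⧸ W)
  let bQ : Module.Basis n R (V ⧸ W) := Module.Free.chooseBasis R (V ⧸ W)
  let b := sumQuot bW bQ
  let A : Matrix m m R := LinearMap.toMatrix bW bW (e.restrict he)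
  let B : Matrix m n R := Matrix.of fun i l ↦
    ((sumQuot bW bQ).repr (e ((sumQuot bW bQ) (Sum.inr l)))) (Sum.inl i)
  let D : Matrix n n R := LinearMap.toMatrix bQ bQ (W.mapQ W e he)
  suffices LinearMap.toMatrix b b e = Matrix.fromBlocks A B 0 D by
    rw [← LinearMap.charpoly_toMatrix e b, this, ← LinearMap.charpoly_toMatrix _ bW,
      ← LinearMap.charpoly_toMatrix _ bQ, Matrix.charpoly_fromBlocks_zero₂₁]
  ext u v
  cases u with
  | inl i =>
    cases v with
    | inl k =>
      simp only [b, sumQuot_inl, Matrix.fromBlocks_apply₁₁, A, LinearMap.toMatrix_apply]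
      apply sumQuot_repr_inl_of_mem
    | inr l => simp [b, LinearMap.toMatrix_apply, Matrix.fromBlocks_apply₁₂, B]
  | inr j =>
    cases v with
    | inl k =>
      suffices W.mkQ (e (bW k)) = 0 by simp [LinearMap.toMatrix_apply, b, this]
      rw [← LinearMap.mem_ker, Submodule.ker_mkQ]
      exact he (Submodule.coe_mem (bW k))
    | inr l =>
      simp only [LinearMap.toMatrix_apply, sumQuot_repr_inr,
        Matrix.fromBlocks_apply₂₂, b, D]
      rw [← sumQuot_inr bW bQ l, W.mapQ_apply]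
      simp

section

variable {R M : Type} [AddCommGroup M] [Module ℤ_[2] M] {κ : M →+ (R → ZMod 2)} {D : M}

lemma κ_two (h : Pool.Agent.Q45.EM.Red κ D) (m : M) : κ ((2 : ℤ_[2]) • m) = 0 :=
  (h.zero_iff _).2 ⟨m, rfl⟩

lemma dich (c : ℤ_[2]) : (∃ c', c = 2 * c') ∨ ∃ c', c = 1 + 2 * c' := by
  have h1 : (PadicInt.toZMod c : ZMod 2) = 0 ∨ (PadicInt.toZMod c : ZMod 2) = 1 := by
    generalize (PadicInt.toZMod c : ZMod 2) = t
    fin_cases t
    · left; rfl
    · right; rfl
  have hk : ∀ y : ℤ_[2], PadicInt.toZMod y = 0 → ∃ c', y = 2 * c' := by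
    intro y hy
    have : y ∈ RingHom.ker (PadicInt.toZMod (p := 2)) := hy
    rw [PadicInt.ker_toZMod, PadicInt.maximalIdeal_eq_span_p, Ideal.mem_span_singleton] at this
    obtain ⟨c', hc'⟩ := this
    exact ⟨c', by rw [hc']; norm_num⟩
  rcases h1 with h | h
  · exact Or.inl (hk c h)
  · right
    obtain ⟨c', hc'⟩ := hk (c - 1) (by rw [map_sub, h, map_one, sub_self])
    exact ⟨c', by rw [← hc']; ring⟩

lemma D_ne [Nonempty R] (h : Pool.Agent.Q45.EM.Red κ D) : D ≠ 0 := by
  intro h0
  have h1 := h.one (Classical.arbitrary R)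
  rw [h0, map_zero] at h1
  exact zero_ne_one h1

lemma two_sat [Nonempty R] [Module.Free ℤ_[2] M] (h : Pool.Agent.Q45.EM.Red κ D) (m : M)
    (hm : (2 : ℤ_[2]) • m ∈ Submodule.span ℤ_[2] {D}) : m ∈ Submodule.span ℤ_[2] {D} := by
  obtain ⟨c, hc⟩ := Submodule.mem_span_singleton.1 hm
  rcases dich c with ⟨c', rfl⟩ | ⟨c', rfl⟩
  · have h1 : (2 : ℤ_[2]) • (c' • D - m) = 0 := by
      rw [smul_sub, ← hc, ← mul_smul, sub_self]
    have h2 : c' • D - m = 0 := by
      rcases smul_eq_zero.1 h1 with h3 | h3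
      · exact absurd h3 two_ne_zero
      · exact h3
    exact Submodule.mem_span_singleton.2 ⟨c', sub_eq_zero.1 h2⟩
  · exfalso
    have h1 : κ ((1 + 2 * c') • D) = 0 := by rw [hc, κ_two h]
    rw [add_smul, one_smul, mul_smul, map_add, κ_two h, add_zero] at h1
    have h2 := h.one (Classical.arbitrary R)
    rw [h1] at h2
    exact zero_ne_one h2

lemma sat [Nonempty R] [Module.Free ℤ_[2] M] (h : Pool.Agent.Q45.EM.Red κ D) (c : ℤ_[2])
    (hc : c ≠ 0) (m : M) (hm : c • m ∈ Submodule.span ℤ_[2] {D}) :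
    m ∈ Submodule.span ℤ_[2] {D} := by
  obtain ⟨n, hn⟩ : ∃ n : ℕ, Associated ((2 : ℤ_[2]) ^ n) c := by
    have h1 := PadicInt.unitCoeff_spec hc
    exact ⟨c.valuation, (PadicInt.unitCoeff hc), by
      rw [mul_comm]
      exact_mod_cast h1.symm⟩
  obtain ⟨u, rfl⟩ := hn
  have h2 : ∀ n : ℕ, ∀ m : M, (2 : ℤ_[2]) ^ n • m ∈ Submodule.span ℤ_[2] {D} →
      m ∈ Submodule.span ℤ_[2] {D} := by
    intro n
    induction n with
    | zero => intro m hm; rwa [pow_zero, one_smul] at hm
    | succ n ih =>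
      intro m hm
      rw [pow_succ, mul_smul] at hm
      exact two_sat h m (ih _ hm)
  apply h2 n
  rw [mul_comm, mul_smul] at hm
  have h3 := Submodule.smul_mem _ ((u⁻¹ : ℤ_[2]ˣ) : ℤ_[2]) hm
  rwa [← mul_smul, Units.inv_mul, one_smul] at h3

theorem free_quot [Nonempty R] [Module.Free ℤ_[2] M] [Module.Finite ℤ_[2] M]
    (h : Pool.Agent.Q45.EM.Red κ D) : Module.Free ℤ_[2] (M ⧸ Submodule.span ℤ_[2] {D}) := by
  have : Module.IsTorsionFree ℤ_[2] (M ⧸ Submodule.span ℤ_[2] {D}) := by
    rw [Module.isTorsionFree_iff_smul_eq_zero]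
    intro c x hx
    obtain ⟨m, rfl⟩ := Submodule.Quotient.mk_surjective _ x
    by_cases hc : c = 0
    · exact Or.inl hc
    · right
      rw [← Submodule.Quotient.mk_smul, Submodule.Quotient.mk_eq_zero] at hx
      rw [Submodule.Quotient.mk_eq_zero]
      exact sat h c hc m hx
  exact Module.free_of_finite_type_torsion_free'

end

theorem main : Pool.Agent.Q45.EM.S_QCH := by
  intro R M _ _ _ _ _ κ D φ π _ hφ h hD hT
  classical
  have hfree := free_quot h
  refine ⟨hfree, ?_⟩
  let W := Submodule.span ℤ_[2] {D}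
  let eD : ℤ_[2] ≃ₗ[ℤ_[2]] W := LinearEquiv.toSpanNonzeroSingleton ℤ_[2] M D (D_ne h)
  haveI : Module.Free ℤ_[2] W := Module.Free.of_equiv eD
  haveI : Module.Finite ℤ_[2] W := Module.Finite.equiv eD
  have h1 := charpoly_mul W φ hφ
  have h2 : (φ.restrict hφ : W →ₗ[ℤ_[2]] W) = 1 := by
    ext ⟨x, hx⟩
    obtain ⟨c, rfl⟩ := Submodule.mem_span_singleton.1 hx
    rw [LinearMap.restrict_coe_apply, Module.End.one_apply, map_smul, hD]
  have h3 : Module.finrank ℤ_[2] W = 1 := by
    rw [← eD.finrank_eq, Module.finrank_self]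
  have h4 : (φ.restrict hφ : W →ₗ[ℤ_[2]] W).charpoly = X - 1 := by
    rw [h2, LinearMap.charpoly_one, h3, pow_one]
  have h5 : (X - 1) * ((Submodule.mapQ _ W φ hφ).charpoly.map PadicInt.toZMod) =
      φ.charpoly.map (PadicInt.toZMod (p := 2)) := by
    rw [h1, h4, Polynomial.map_mul, Polynomial.map_sub, Polynomial.map_X, Polynomial.map_one]
  rw [h5]
  have h6 := Pool.Agent.Q151.GM.lin8 2 M φ (R → ZMod 2)
    (LinearMap.funLeft (ZMod 2) (ZMod 2) ((π⁻¹ : Equiv.Perm R) : R → R)) κ
    (by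
      intro m
      rw [h.zero_iff]
      push_cast
      rfl)
    (by
      intro m
      funext r
      rw [LinearMap.funLeft_apply]
      have := hT m ((π⁻¹ : Equiv.Perm R) r)
      rw [← this]
      have h8 : π ((π⁻¹ : Equiv.Perm R) r) = r := π.apply_symm_apply r
      rw [h8])
  rw [CHP.charpoly_funLeft] at h6
  have h7 : (Equiv.Perm.partition (π⁻¹ : Equiv.Perm R)).parts = (Equiv.Perm.partition π).parts := by
    rw [Equiv.Perm.parts_partition, Equiv.Perm.parts_partition, Equiv.Perm.cycleType_inv,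
      Equiv.Perm.support_inv]
  rw [h7] at h6
  exact h6

end Pool.Agent.Q237.EM.QCH
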