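import Pool.Agent.Q86.EM.Stm

/-! # Project EM (helper86): the second variation -/

set_option autoImplicit false

namespace Pool.Agent.Q237.EM

open MeasureTheory Set Filter Topology
open scoped ENNReal InnerProductSpace ContDiff
open Pool.Agent.H888R2.KT (LC pst gs zz gc)
open Pool.Agent.H212R2.KLS (mu Bdd)
open Pool.Agent.Q86.EM

variable {κ : Type} [Fintype κ]

/-- bounded continuous functions are integrable -/
theorem int_bdd {ν : Measure (Eu κ)} [IsFiniteMeasure ν] {f : Eu κ → ℝ} (hf : Continuous f) {B : ℝ}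
    (hb : ∀ y, |f y| ≤ B) : Integrable f ν :=
  Integrable.of_bound hf.aestronglyMeasurable B (Eventually.of_forall fun y => by
    rw [Real.norm_eq_abs]; exact hb y)

/-- **S_SEC.** -/
theorem sec (h1 : S_FUB) (h2 : S_GSF) : S_SEC := by
  intro κ _ ρ hρ hm h hh v φ s hv hφ hφ0 hφ1 hφ2 hs
  obtain ⟨hP, -⟩ := h1 κ ρ hρ hm h hh
  obtain ⟨g1, g2, -⟩ := h2 κ h hh
  have hM : IsFiniteMeasure (mu ρ) := ⟨by rw [hm]; exact ENNReal.one_lt_top⟩
  have hMp : IsProbabilityMeasure (mu ρ) := ⟨hm⟩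
  have hsh : 0 < √h := Real.sqrt_pos.2 hh
  have hsh2 : √h * √h = h := Real.mul_self_sqrt hh.le
  -- the bound for φ
  have hφb : ∀ y, φ y ≤ 1 / √h := by
    intro y
    rw [le_div_iff₀ hsh]
    have e1 : (φ y * √h) ^ 2 ≤ 1 ^ 2 := by
      have e2 : (φ y * √h) ^ 2 = h * φ y ^ 2 := by rw [mul_pow, Real.sq_sqrt hh.le, mul_comm]
      rw [e2, one_pow]
      exact (hφ1 y).trans (hv.le y)
    exact le_of_sq_le_sq e1 zero_le_one
  -- the truncated function
  set f : Eu κ → ℝ := fun y => min (φ y) (min (v y / s) ((1 - v y) / s)) with hf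
  have hfc : Continuous f := hφ.min ((hv.cont.div_const s).min ((continuous_const.sub hv.cont).div_const s))
  have hf0 : ∀ y, 0 ≤ f y := fun y => le_min (hφ0 y)
    (le_min (div_nonneg (hv.nn y) hs.le) (div_nonneg (by linarith [hv.le y]) hs.le))
  have hfφ : ∀ y, f y ≤ φ y := fun y => min_le_left _ _
  have hfv : ∀ y, s * f y ≤ v y := by
    intro y
    have e1 : f y ≤ v y / s := (min_le_right _ _).trans (min_le_left _ _)
    rw [le_div_iff₀ hs] at e1
    linarith
  have hfv2 : ∀ y, s * f y ≤ 1 - v y := by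
    intro y
    have e1 : f y ≤ (1 - v y) / s := (min_le_right _ _).trans (min_le_right _ _)
    rw [le_div_iff₀ hs] at e1
    linarith
  have hfb : ∀ y, f y ≤ 1 / √h := fun y => (hfφ y).trans (hφb y)
  have hB0 : 0 ≤ 1 / √h := by positivity
  have hdiff : ∀ y, φ y - f y ≤ s / h := by
    intro y
    have key : ∀ w : ℝ, h * φ y ^ 2 ≤ w → w / s < φ y → φ y ≤ s / h := by
      intro w hw hlt
      rw [div_lt_iff₀ hs] at hlt
      rw [le_div_iff₀ hh]
      have hpos : 0 < φ y := by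
        rcases (hφ0 y).eq_or_lt with h0 | h0
        · exfalso
          rw [← h0] at hlt hw
          simp at hw hlt
          linarith
        · exact h0
      by_contra hcon
      push Not at hcon
      have := mul_lt_mul_of_pos_right hcon hpos
      nlinarith
    rcases min_choice (φ y) (min (v y / s) ((1 - v y) / s)) with h3 | h3
    · have e1 : f y = φ y := h3
      rw [e1, sub_self]
      positivity
    · rcases min_choice (v y / s) ((1 - v y) / s) with h4 | h4
      · have e1 : f y = v y / s := h3.trans h4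
        rcases lt_or_ge (v y / s) (φ y) with h5 | h5
        · linarith [key _ (hφ1 y) h5, hf0 y]
        · rw [e1]
          have : 0 ≤ s / h := by positivity
          linarith
      · have e1 : f y = (1 - v y) / s := h3.trans h4
        rcases lt_or_ge ((1 - v y) / s) (φ y) with h5 | h5
        · linarith [key _ (hφ2 y) h5, hf0 y]
        · rw [e1]
          have : 0 ≤ s / h := by positivity
          linarith
  -- bounds
  have hvB : ∀ y, |v y| ≤ 1 := fun y => abs_le.2 ⟨by linarith [hv.nn y], hv.le y⟩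
  have hfB : ∀ y, |f y| ≤ 1 / √h := fun y => by rw [abs_of_nonneg (hf0 y)]; exact hfb y
  have hφB : ∀ y, |φ y| ≤ 1 / √h := fun y => by rw [abs_of_nonneg (hφ0 y)]; exact hφb y
  set B : ℝ := 1 + (s + 1) * (1 / √h) with hB
  have hBle : 1 ≤ B := by rw [hB]; have : 0 ≤ (s + 1) * (1 / √h) := by positivity
                          linarith
  have hvB' : ∀ y, |v y| ≤ B := fun y => (hvB y).trans hBle
  have hsfB : ∀ c : ℝ, |c| ≤ s → ∀ y, |c * f y| ≤ B := by
    intro c hc y
    rw [abs_mul]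
    have e1 : |c| * |f y| ≤ s * (1 / √h) := mul_le_mul hc (hfB y) (abs_nonneg _) hs.le
    rw [hB]
    nlinarith
  -- the averages
  set Gv := gs h v with hGv
  set Gf := gs h f with hGf
  set Gφ := gs h φ with hGφ
  have cGv : Continuous Gv := (g1 v v hv.cont hv.cont 1 hvB hvB).1
  have cGf : Continuous Gf := (g1 f f hfc hfc _ hfB hfB).1
  have cGφ : Continuous Gφ := (g1 φ φ hφ hφ _ hφB hφB).1
  have hGv0 : ∀ x, 0 ≤ Gv x := by
    intro x
    have e1 := (g1 (fun _ => 0) v continuous_const hv.cont 1 (fun y => by simp) hvB).2.2.2.2.2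
      (fun y => hv.nn y) x
    rwa [g2 0 x] at e1
  have hGv1 : ∀ x, Gv x ≤ 1 := by
    intro x
    have e1 := (g1 v (fun _ => 1) hv.cont continuous_const 1 hvB (fun y => by simp)).2.2.2.2.2
      (fun y => hv.le y) x
    rwa [g2 1 x] at e1
  have hGf0 : ∀ x, 0 ≤ Gf x := by
    intro x
    have e1 := (g1 (fun _ => 0) f continuous_const hfc _ (fun y => by simpa using hB0) hfB).2.2.2.2.2
      (fun y => hf0 y) x
    rwa [g2 0 x] at e1
  have hGfφ : ∀ x, Gf x ≤ Gφ x := fun x => (g1 f φ hfc hφ _ hfB hφB).2.2.2.2.2 hfφ x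
  have hGφb : ∀ x, Gφ x ≤ 1 / √h := by
    intro x
    have e1 := (g1 φ (fun _ => 1 / √h) hφ continuous_const (1 / √h) hφB
      (fun y => by rw [abs_of_nonneg hB0])).2.2.2.2.2 hφb x
    rwa [g2 (1 / √h) x] at e1
  have hGdiff : ∀ x, Gφ x - Gf x ≤ s / h := by
    intro x
    have e1 := (g1 φ (fun y => f y + s / h) hφ (hfc.add continuous_const) (1 / √h + s / h)
      (fun y => (hφB y).trans (by have : 0 ≤ s / h := by positivity
                                  linarith))
      (fun y => by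
        rw [abs_of_nonneg (add_nonneg (hf0 y) (by positivity))]
        linarith [hfb y])).2.2.2.2.2 (fun y => by linarith [hdiff y]) x
    have e2 := (g1 f (fun _ => s / h) hfc continuous_const (1 / √h + s / h)
      (fun y => (hfB y).trans (by have : 0 ≤ s / h := by positivity
                                  linarith))
      (fun y => by
        rw [abs_of_nonneg (by positivity : 0 ≤ s / h)]
        linarith)).2.2.2.1 x
    rw [e2, g2 (s / h) x] at e1
    linarith
  have hGsum : ∀ c : ℝ, |c| ≤ s → ∀ x, gs h (fun y => v y + c * f y) x = Gv x + c * Gf x := by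
    intro c hc x
    rw [(g1 v (fun y => c * f y) hv.cont (continuous_const.mul hfc) B hvB' (hsfB c hc)).2.2.2.1 x,
      (g1 f f hfc hfc _ hfB hfB).2.2.2.2.1 c x]
  -- the two functions
  have hva : Vc (fun y => v y + s * f y) :=
    ⟨hv.cont.add (continuous_const.mul hfc), fun y => add_nonneg (hv.nn y) (mul_nonneg hs.le (hf0 y)),
      fun y => by linarith [hfv2 y]⟩
  have hvb : Vc (fun y => v y + (-s) * f y) :=
    ⟨hv.cont.add (continuous_const.mul hfc), fun y => by linarith [hfv y],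
      fun y => by have := mul_nonneg hs.le (hf0 y)
                  linarith [hv.le y]⟩
  have iv : Integrable v (ny h ρ) := int_bdd hv.cont hvB
  have if' : Integrable f (ny h ρ) := int_bdd hfc hfB
  have hfint : ∫ y, f y ∂(ny h ρ) ≤ 1 / √h := by
    have e1 := integral_mono if' (integrable_const (1 / √h)) hfb
    rw [integral_const, probReal_univ, one_smul] at e1
    exact e1
  have hfint0 : 0 ≤ ∫ y, f y ∂(ny h ρ) := integral_nonneg hf0
  refine ⟨fun y => v y + s * f y, fun y => v y + (-s) * f y, hva, hvb, ?_, ?_, ?_⟩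
  · rw [integral_add iv (if'.const_mul s), integral_const_mul]
    have e1 : s * ∫ y, f y ∂(ny h ρ) ≤ s * (1 / √h) := mul_le_mul_of_nonneg_left hfint hs.le
    have e2 : s / √h = s * (1 / √h) := by ring
    linarith
  · rw [integral_add iv (if'.const_mul (-s)), integral_const_mul]
    have e1 : 0 ≤ s * ∫ y, f y ∂(ny h ρ) := mul_nonneg hs.le hfint0
    have e2 : 0 ≤ s / √h := by positivity
    linarith
  · -- the values of the functional
    have iv2 : Integrable (fun y => v y ^ 2) (ny h ρ) :=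
      int_bdd (hv.cont.pow 2) (B := 1) (fun y => by
        rw [abs_of_nonneg (sq_nonneg _)]
        have := hv.nn y
        have := hv.le y
        nlinarith)
    have if2 : Integrable (fun y => f y ^ 2) (ny h ρ) :=
      int_bdd (hfc.pow 2) (B := (1 / √h) ^ 2) (fun y => by
        rw [abs_of_nonneg (sq_nonneg _)]
        exact pow_le_pow_left₀ (hf0 y) (hfb y) 2)
    have iφ2 : Integrable (fun y => φ y ^ 2) (ny h ρ) :=
      int_bdd (hφ.pow 2) (B := (1 / √h) ^ 2) (fun y => by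
        rw [abs_of_nonneg (sq_nonneg _)]
        exact pow_le_pow_left₀ (hφ0 y) (hφb y) 2)
    have ia2 : Integrable (fun y => (v y + s * f y) ^ 2) (ny h ρ) :=
      int_bdd (hva.cont.pow 2) (B := 1) (fun y => by
        rw [abs_of_nonneg (sq_nonneg _)]
        have := hva.nn y
        have := hva.le y
        nlinarith)
    have ib2 : Integrable (fun y => (v y + (-s) * f y) ^ 2) (ny h ρ) :=
      int_bdd (hvb.cont.pow 2) (B := 1) (fun y => by
        rw [abs_of_nonneg (sq_nonneg _)]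
        have := hvb.nn y
        have := hvb.le y
        nlinarith)
    have hsq : ∫ y, (v y + s * f y) ^ 2 ∂(ny h ρ) + ∫ y, (v y + (-s) * f y) ^ 2 ∂(ny h ρ) -
        2 * ∫ y, v y ^ 2 ∂(ny h ρ) = 2 * s ^ 2 * ∫ y, f y ^ 2 ∂(ny h ρ) := by
      have ea : ∫ y, ((v y + s * f y) ^ 2 + (v y + (-s) * f y) ^ 2) ∂(ny h ρ) =
          ∫ y, (v y + s * f y) ^ 2 ∂(ny h ρ) + ∫ y, (v y + (-s) * f y) ^ 2 ∂(ny h ρ) := integral_add ia2 ib2
      have es : ∫ y, (((v y + s * f y) ^ 2 + (v y + (-s) * f y) ^ 2) - 2 * v y ^ 2) ∂(ny h ρ) =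
          ∫ y, ((v y + s * f y) ^ 2 + (v y + (-s) * f y) ^ 2) ∂(ny h ρ) - ∫ y, 2 * v y ^ 2 ∂(ny h ρ) :=
        integral_sub (ia2.add ib2) (iv2.const_mul 2)
      rw [← ea, ← integral_const_mul, ← integral_const_mul, ← es]
      refine integral_congr_ae (Eventually.of_forall fun y => ?_)
      simp only
      ring
    have cK : Continuous Kp := by unfold Kp; fun_prop
    have cD : Continuous Pd := by unfold Pd; fun_prop
    have int : ∀ g : Eu κ → ℝ, Continuous g → Integrable g (mu ρ) := fun g hg =>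
      Pool.Agent.H888R2.KT.N9ax.integrable hρ hg
    have hs' : |s| ≤ s := (abs_of_pos hs).le
    have hs'' : |(-s)| ≤ s := by rw [abs_neg]; exact hs'
    have hKa : ∀ x, Kp (gs h (fun y => v y + s * f y) x) = Kp (Gv x + s * Gf x) := fun x => by
      rw [hGsum s hs' x]
    have hKb : ∀ x, Kp (gs h (fun y => v y + (-s) * f y) x) = Kp (Gv x + (-s) * Gf x) := fun x => by
      rw [hGsum (-s) hs'' x]
    have iKa : Integrable (fun x => Kp (Gv x + s * Gf x)) (mu ρ) :=
      int _ (cK.comp (cGv.add (continuous_const.mul cGf)))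
    have iKb : Integrable (fun x => Kp (Gv x + (-s) * Gf x)) (mu ρ) :=
      int _ (cK.comp (cGv.add (continuous_const.mul cGf)))
    have iKv : Integrable (fun x => Kp (Gv x)) (mu ρ) := int _ (cK.comp cGv)
    have iT : Integrable (fun x => Pd (Gv x) * Gφ x ^ 2) (mu ρ) :=
      int _ ((cD.comp cGv).mul (cGφ.pow 2))
    -- the pointwise inequality
    have hpt : ∀ x, s ^ 2 * (Pd (Gv x) * Gφ x ^ 2) - (4 * s ^ 3 / (h * √h) + s ^ 4 / (2 * h ^ 2)) ≤
        Kp (Gv x + s * Gf x) + Kp (Gv x + (-s) * Gf x) - 2 * Kp (Gv x) := by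
      intro x
      have e1 := Kp_second (Gv x) (s * Gf x)
      have e2 : Gv x + (-s) * Gf x = Gv x - s * Gf x := by ring
      rw [e2, e1]
      have p0 := Pd_nn (hGv0 x) (hGv1 x)
      have p1 := Pd_le (Gv x)
      have q0 := hGf0 x
      have q1 := hGfφ x
      have q2 := hGφb x
      have q3 := hGdiff x
      have hsum : Gφ x + Gf x ≤ 2 / √h := by
        have : 2 / √h = 1 / √h + 1 / √h := by ring
        rw [this]
        linarith
      have hsqd : Gφ x ^ 2 - Gf x ^ 2 ≤ s / h * (2 / √h) := by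
        have e3 : Gφ x ^ 2 - Gf x ^ 2 = (Gφ x - Gf x) * (Gφ x + Gf x) := by ring
        rw [e3]
        exact mul_le_mul q3 hsum (by linarith) (by positivity)
      have hsqd0 : 0 ≤ Gφ x ^ 2 - Gf x ^ 2 := by nlinarith
      have e4 : Pd (Gv x) * (Gφ x ^ 2 - Gf x ^ 2) ≤ 2 * (s / h * (2 / √h)) :=
        mul_le_mul p1 hsqd hsqd0 (by norm_num)
      have e5 : s ^ 2 * (2 * (s / h * (2 / √h))) = 4 * s ^ 3 / (h * √h) := by
        field_simp
        ring
      have e6 : Gf x ^ 4 ≤ 1 / h ^ 2 := by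
        have e7 : Gf x ^ 4 ≤ (1 / √h) ^ 4 := pow_le_pow_left₀ q0 (q1.trans q2) 4
        have e8 : (1 / √h) ^ 4 = 1 / h ^ 2 := by
          rw [div_pow, one_pow, show (4 : ℕ) = 2 * 2 by norm_num, pow_mul, Real.sq_sqrt hh.le]
        rwa [e8] at e7
      have e9 : s ^ 4 * Gf x ^ 4 ≤ s ^ 4 * (1 / h ^ 2) := mul_le_mul_of_nonneg_left e6 (by positivity)
      have e10 : s ^ 4 / (2 * h ^ 2) = 1 / 2 * (s ^ 4 * (1 / h ^ 2)) := by
        field_simp
      have e11 := mul_le_mul_of_nonneg_left e4 (sq_nonneg s)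
      rw [e5] at e11
      rw [e10]
      have e12 : (s * Gf x) ^ 4 = s ^ 4 * Gf x ^ 4 := mul_pow _ _ _
      have e13 : (s * Gf x) ^ 2 = s ^ 2 * Gf x ^ 2 := mul_pow _ _ _
      rw [e12, e13]
      nlinarith
    have hint := integral_mono ((iT.const_mul (s ^ 2)).sub (integrable_const
      (4 * s ^ 3 / (h * √h) + s ^ 4 / (2 * h ^ 2)))) ((iKa.add iKb).sub (iKv.const_mul 2)) hpt
    have hL : ∫ x, (s ^ 2 * (Pd (Gv x) * Gφ x ^ 2) - (4 * s ^ 3 / (h * √h) + s ^ 4 / (2 * h ^ 2))) ∂(mu ρ) =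
        s ^ 2 * ∫ x, Pd (Gv x) * Gφ x ^ 2 ∂(mu ρ) - (4 * s ^ 3 / (h * √h) + s ^ 4 / (2 * h ^ 2)) := by
      rw [integral_sub (iT.const_mul _) (integrable_const _), integral_const_mul, integral_const, probReal_univ,
        one_smul]
    have hR : ∫ x, (Kp (Gv x + s * Gf x) + Kp (Gv x + (-s) * Gf x) - 2 * Kp (Gv x)) ∂(mu ρ) =
        ∫ x, Kp (Gv x + s * Gf x) ∂(mu ρ) + ∫ x, Kp (Gv x + (-s) * Gf x) ∂(mu ρ) -
          2 * ∫ x, Kp (Gv x) ∂(mu ρ) := by
      have ea : ∫ x, (Kp (Gv x + s * Gf x) + Kp (Gv x + (-s) * Gf x)) ∂(mu ρ) =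
          ∫ x, Kp (Gv x + s * Gf x) ∂(mu ρ) + ∫ x, Kp (Gv x + (-s) * Gf x) ∂(mu ρ) := integral_add iKa iKb
      have es : ∫ x, (Kp (Gv x + s * Gf x) + Kp (Gv x + (-s) * Gf x) - 2 * Kp (Gv x)) ∂(mu ρ) =
          ∫ x, (Kp (Gv x + s * Gf x) + Kp (Gv x + (-s) * Gf x)) ∂(mu ρ) - ∫ x, 2 * Kp (Gv x) ∂(mu ρ) :=
        integral_sub (iKa.add iKb) (iKv.const_mul 2)
      rw [es, ea, integral_const_mul]
    have hint' : s ^ 2 * ∫ x, Pd (Gv x) * Gφ x ^ 2 ∂(mu ρ) - (4 * s ^ 3 / (h * √h) + s ^ 4 / (2 * h ^ 2)) ≤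
        ∫ x, Kp (Gv x + s * Gf x) ∂(mu ρ) + ∫ x, Kp (Gv x + (-s) * Gf x) ∂(mu ρ) -
          2 * ∫ x, Kp (Gv x) ∂(mu ρ) := by
      rw [← hL, ← hR]
      exact hint
    have hφf : ∫ y, f y ^ 2 ∂(ny h ρ) ≤ ∫ y, φ y ^ 2 ∂(ny h ρ) :=
      integral_mono if2 iφ2 fun y => pow_le_pow_left₀ (hf0 y) (hfφ y) 2
    have hφf' := mul_le_mul_of_nonneg_left hφf (sq_nonneg s)
    unfold JJ
    simp only [hKa, hKb]
    rw [← hGv]
    linarith

end Pool.Agent.Q237.EM
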